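import Pool.Agent.KS6_27.HQ.Asym

/-!
# Hamiltonian circuits of the hypercube: the asymptotics `(n / e) ^ (2 ^ n)`

The number `f n` of the Hamiltonian circuits of the cube `Q_n` is `((1 + o(1)) n / e) ^ (2 ^ n)`: the
conjectured value.  So the numbers `k` with `f n > (k n) ^ (2 ^ n)` for all large `n` are, up to the
boundary point, exactly those below `1 / e`.
-/

set_option autoImplicit false

namespace Pool.Agent.Results.MP_f73734_co.AsymptoticCount

open Filter Topology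

/-- The `n`-dimensional cube graph `Q_n`: the vertices are the 0-1 vectors of length `n`, and two
vertices are adjacent when they differ in exactly one coordinate. -/
def cube (n : ℕ) : SimpleGraph (Fin n → Bool) where
  Adj x y := ∃! i, x i ≠ y i
  symm := ⟨by
    rintro x y ⟨i, hi, hu⟩
    exact ⟨i, hi.symm, fun j hj => hu j (Ne.symm hj)⟩⟩
  loopless := ⟨by
    rintro x ⟨i, hi, _⟩
    exact hi rfl⟩

/-- `f n`: the number of Hamiltonian circuits of `Q_n`, each counted once as a subgraph (the subgraph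
formed by the vertices and edges of a closed walk which is a Hamiltonian cycle). -/
noncomputable def f (n : ℕ) : ℕ :=
  Nat.card {H : (cube n).Subgraph //
    ∃ (v : Fin n → Bool) (p : (cube n).Walk v v), p.IsHamiltonianCycle ∧ p.toSubgraph = H}

theorem f_eq (n : ℕ) : f n = Pool.Agent.KS6_27.HQ.f n := rfl

/-- **The number of Hamiltonian circuits of the hypercube.**
(1) For a constant `C` and all large `n`, `f n ≥ (n/e)^(2^n) exp (- C 2^n log n / n^(1/4))`.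
(2) For every `n ≥ 1`, `f n ≤ (n!)^(2^n/n)`.
(3) For every `k` with `0 < k < 1/e`, `f n > (k n)^(2^n)` for all large `n`.
(4) For every `k > 1/e`, `f n < (k n)^(2^n)` for all large `n`.
(5) `f(n)^(1/2^n) / n → 1/e`. -/
theorem result :
    (∃ C : ℝ, ∃ n₀ : ℕ, ∀ n : ℕ, n₀ ≤ n →
      ((n : ℝ) / Real.exp 1) ^ (2 ^ n) *
        Real.exp (-(C * 2 ^ n * Real.log n / (n : ℝ) ^ (1 / 4 : ℝ))) ≤ (f n : ℝ)) ∧
    (∀ n : ℕ, 1 ≤ n → (f n : ℝ) ≤ (n.factorial : ℝ) ^ ((2 : ℝ) ^ n / n)) ∧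
    (∀ k : ℝ, 0 < k → k < 1 / Real.exp 1 →
      ∃ n₀ : ℕ, ∀ n : ℕ, n₀ ≤ n → (k * (n : ℝ)) ^ (2 ^ n) < (f n : ℝ)) ∧
    (∀ k : ℝ, 1 / Real.exp 1 < k →
      ∃ n₀ : ℕ, ∀ n : ℕ, n₀ ≤ n → (f n : ℝ) < (k * (n : ℝ)) ^ (2 ^ n)) ∧
    Tendsto (fun n : ℕ => ((f n : ℝ) ^ ((1 : ℝ) / 2 ^ n)) / n) atTop (𝓝 (1 / Real.exp 1)) := by
  refine ⟨⟨2 ^ 43, 2 ^ 164, ?_⟩, ?_, ?_, ?_, ?_⟩
  · intro n hn
    have hnpos : (0 : ℝ) < n := by
      have : 0 < n := lt_of_lt_of_le (by positivity) hn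
      exact_mod_cast this
    rw [f_eq]
    refine le_trans (le_of_eq ?_) (Pool.Agent.KS6_27.HQ.quant n hn)
    have h1 : ((n : ℝ) / Real.exp 1) ^ (2 ^ n) = Real.exp (2 ^ n * (Real.log n - 1)) := by
      have h4 : (2 : ℝ) ^ n = ((2 ^ n : ℕ) : ℝ) := by push_cast; rfl
      rw [h4, Real.exp_nat_mul, Real.exp_sub, Real.exp_log hnpos]
    rw [h1, ← Real.exp_add]
    congr 1
    ring
  · intro n hn
    rw [f_eq]
    exact Pool.Agent.KS6_27.HQ.upper_fact n hn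
  · intro k hk0 hk
    obtain ⟨n₀, h⟩ := Pool.Agent.KS6_27.HQ.lower k hk0 hk
    exact ⟨n₀, fun n hn => by rw [f_eq]; exact h n hn⟩
  · intro k hk
    obtain ⟨n₀, h⟩ := Pool.Agent.KS6_27.HQ.upper k hk
    exact ⟨n₀, fun n hn => by rw [f_eq]; exact h n hn⟩
  · exact Pool.Agent.KS6_27.HQ.limit

end Pool.Agent.Results.MP_f73734_co.AsymptoticCount
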